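import Pool.Agent.H32.CH.Targets

/-! MP_aaa807_co: transfer of windows of positions to windows of vertices; modules WP and WC. -/

set_option autoImplicit false
set_option linter.unusedSectionVars false

namespace Pool.Agent.H90.CH

open Finset
open Pool.Agent.H32.CH
open scoped Classical

variable {V : Type} [Fintype V]

/-- windows of positions give windows of vertices -/
theorem win_of_enum {G : SimpleGraph V} {A C : Finset V} {n : ℕ} {f : ℕ → V} (hE : Enum G C n f)
    {q : ℕ} {w : Fin q → Finset ℕ} (hw : CW n q w)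
    (hd : ∀ i, ∀ x ∈ w i, dg G A (f x) = 2) : Win G A C (fun i => (w i).image f) := by
  obtain ⟨hinj, hC, -, -⟩ := hE
  obtain ⟨h1, h2, h3⟩ := hw
  refine ⟨?_, ?_, ?_, ?_⟩
  · intro i
    rw [card_image_of_injOn, h1 i]
    intro a ha b hb hab
    exact hinj a (mem_range.1 (h2 i ha)) b (mem_range.1 (h2 i hb)) hab
  · intro i x hx
    obtain ⟨a, ha, rfl⟩ := mem_image.1 hx
    rw [hC]
    exact mem_image.2 ⟨a, h2 i ha, rfl⟩
  · intro i x hx
    obtain ⟨a, ha, rfl⟩ := mem_image.1 hx
    exact hd i a ha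
  · intro i j hij
    rw [disjoint_left]
    intro x hx hx'
    obtain ⟨a, ha, rfl⟩ := mem_image.1 hx
    obtain ⟨b, hb, hab⟩ := mem_image.1 hx'
    have := hinj b (mem_range.1 (h2 j hb)) a (mem_range.1 (h2 i ha)) hab
    subst this
    exact (disjoint_left.1 (h3 i j hij)) ha hb

/-- a transversal of the windows of vertices gives a transversal of the windows of positions -/
theorem trv_pos {G : SimpleGraph V} {C : Finset V} {n : ℕ} {f : ℕ → V} (hE : Enum G C n f)
    {q : ℕ} {w : Fin q → Finset ℕ} (hw : CW n q w) {R : Finset V}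
    (hR : Trv (fun i => (w i).image f) R) (i : Fin q) :
    ((range n).filter (fun j => f j ∈ R) ∩ w i).card = 1 := by
  obtain ⟨hinj, -, -, -⟩ := hE
  obtain ⟨-, h2, -⟩ := hw
  have h := hR i
  have heq : R ∩ (w i).image f = ((range n).filter (fun j => f j ∈ R) ∩ w i).image f := by
    ext x
    simp only [mem_inter, mem_image, mem_filter]
    constructor
    · rintro ⟨hx, a, ha, rfl⟩
      exact ⟨a, ⟨⟨h2 i ha, hx⟩, ha⟩, rfl⟩
    · rintro ⟨a, ⟨⟨-, hx⟩, ha⟩, rfl⟩
      exact ⟨hx, a, ha, rfl⟩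
  have h' : (R ∩ (w i).image f).card = 1 := h
  rw [heq, card_image_of_injOn] at h'
  · exact h'
  · intro a ha b hb hab
    simp only [coe_inter, Set.mem_inter_iff, mem_coe] at ha hb
    exact hinj a (mem_range.1 (h2 i ha.2)) b (mem_range.1 (h2 i hb.2)) hab

/-- a set of good positions taken from the transversal gives a subset of R -/
theorem image_sub {n : ℕ} {f : ℕ → V} {R : Finset V} {s : Finset ℕ}
    (hs : s ⊆ (range n).filter (fun j => f j ∈ R)) : s.image f ⊆ R := by
  intro x hx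
  obtain ⟨a, ha, rfl⟩ := mem_image.1 hx
  exact (mem_filter.1 (hs ha)).2

theorem pf_WP (h1 : T_EN) (h2 : T_WPA) (h3 : T_GP) (h4 : T_DC) : T_WP := by
  intro V _ G A C hC hle hne hcard
  have hle' : ∀ x ∈ C, dg G C x ≤ 2 := by
    intro x hx
    rw [← h4 V G A C x hC hx]
    exact hle x hx
  obtain ⟨f, hE⟩ := h1 V G C hC.2.1 hle'
  obtain ⟨n, hn⟩ : ∃ n, n = C.card := ⟨_, rfl⟩
  rw [← hn] at hE hcard
  have hmem : ∀ i < n, f i ∈ C := by
    intro i hi
    rw [hE.2.1]
    exact mem_image.2 ⟨i, mem_range.2 hi, rfl⟩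
  -- the ends are not adjacent
  have hends : ¬ G.Adj (f 0) (f (n - 1)) := by
    intro hadj
    obtain ⟨x, hx, hx2⟩ := hne
    have hxC : x ∈ (range n).image f := by rw [← hE.2.1]; exact hx
    obtain ⟨j, hj, rfl⟩ := mem_image.1 hxC
    have hj := mem_range.1 hj
    apply hx2
    apply le_antisymm (hle _ hx)
    rw [h4 V G A C _ hC hx]
    have key : ∃ a b, a < n ∧ b < n ∧ a ≠ b ∧ G.Adj (f j) (f a) ∧ G.Adj (f j) (f b) := by
      by_cases hj0 : j = 0
      · subst hj0
        exact ⟨1, n - 1, by omega, by omega, by omega, hE.2.2.1 0 (by omega), hadj⟩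
      · by_cases hj1 : j = n - 1
        · refine ⟨0, n - 2, by omega, by omega, by omega, ?_, ?_⟩
          · rw [hj1]; exact hadj.symm
          · have := hE.2.2.1 (n - 2) (by omega)
            rw [show n - 2 + 1 = j by omega] at this
            exact this.symm
        · refine ⟨j - 1, j + 1, by omega, by omega, by omega, ?_, hE.2.2.1 j (by omega)⟩
          have := hE.2.2.1 (j - 1) (by omega)
          rw [show j - 1 + 1 = j by omega] at this
          exact this.symm
    obtain ⟨a, b, ha, hb, hab, hja, hjb⟩ := key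
    exact dg_ge_two (fun h => hab (hE.1 a ha b hb h)) (hmem a ha) (hmem b hb) hja hjb
  obtain ⟨q, w, hw, hin, hgood⟩ := h2 n hcard
  refine ⟨q, fun i => (w i).image f, win_of_enum hE hw ?_, ?_⟩
  · intro i x hx
    obtain ⟨hx1, hx2⟩ := hin i x hx
    have hxC := hmem x (by omega)
    apply le_antisymm (hle _ hxC)
    rw [h4 V G A C _ hC hxC]
    have ha := hE.2.2.1 (x - 1) (by omega)
    rw [show x - 1 + 1 = x by omega] at ha
    exact dg_ge_two (fun h => by
      have := hE.1 (x - 1) (by omega) (x + 1) (by omega) h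
      omega) (hmem (x - 1) (by omega)) (hmem (x + 1) (by omega)) ha.symm
      (hE.2.2.1 x (by omega))
  · intro R hR
    obtain ⟨s, hs, hPG⟩ := hgood _ (filter_subset _ _) (trv_pos hE hw hR)
    exact ⟨s.image f, image_sub hs, h3 V G C n f s hE (fun _ => hends) hPG⟩

theorem pf_WC (h1 : T_ENC) (a0 : T_W0) (a2 : T_W2) (a3 : T_W3) (a4 : T_W4) (a5 : T_W5)
    (h3 : T_GC) (h4 : T_DC) : T_WC := by
  intro V _ G A C hC hd hcard hmod
  have hd' : ∀ x ∈ C, dg G C x = 2 := by
    intro x hx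
    rw [← h4 V G A C x hC hx]
    exact hd x hx
  obtain ⟨x, hx⟩ := hC.2.1.1
  obtain ⟨h3n, f, hE, -, hadj⟩ := h1 V G C x hC.2.1 hd' hx
  obtain ⟨n, hn⟩ : ∃ n, n = C.card := ⟨_, rfl⟩
  rw [← hn] at hE hcard hmod h3n hadj
  have hmem : ∀ i < n, f i ∈ C := by
    intro i hi
    rw [hE.2.1]
    exact mem_image.2 ⟨i, mem_range.2 hi, rfl⟩
  have hsys : CSys n (fun _ => True) := by
    obtain ⟨m, hm⟩ : ∃ m, m = n / 6 := ⟨_, rfl⟩
    have hm1 : 1 ≤ m := by omega
    have hcase : n = 6 * m ∨ n = 6 * m + 2 ∨ n = 6 * m + 3 ∨ n = 6 * m + 4 ∨ n = 6 * m + 5 := by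
      omega
    rcases hcase with h | h | h | h | h
    · rw [h]; exact a0 m hm1
    · rw [h]; exact a2 m hm1
    · rw [h]; exact a3 m hm1
    · rw [h]; exact a4 m hm1
    · rw [h]; exact a5 m hm1
  obtain ⟨q, w, hw, hgood⟩ := hsys
  refine ⟨q, fun i => (w i).image f, win_of_enum hE hw ?_, ?_⟩
  · intro i x hx
    exact hd _ (hmem x (mem_range.1 (hw.2.1 i hx)))
  · intro R hR
    obtain ⟨s, hs, hCG⟩ := hgood _ (filter_subset _ _) (trv_pos hE hw hR) trivial
    exact ⟨s.image f, image_sub hs, h3 V G C n f s h3n hE hadj hCG⟩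

end Pool.Agent.H90.CH
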