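import Pool.Agent.H32.CH.Targets

/-! MP_aaa807_co: module W5. -/

set_option autoImplicit false
set_option linter.unusedSectionVars false

namespace Pool.Agent.H90.CH

open Finset
open Pool.Agent.H32.CH
open scoped Classical

/-- the windows for n = 6 m + 5 -/
def w5 (i : ℕ) : Finset ℕ := if i = 0 then {0, 1, 2} else {3 * i + 1, 3 * i + 2, 3 * i + 3}

theorem mem_w5 (i x : ℕ) : x ∈ w5 i ↔ (i = 0 ∧ x ≤ 2) ∨ (i ≠ 0 ∧ 3 * i + 1 ≤ x ∧ x ≤ 3 * i + 3) := by
  unfold w5
  split_ifs with h
  · simp only [mem_insert, mem_singleton]
    omega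
  · simp only [mem_insert, mem_singleton]
    omega

theorem card_w5 (i : ℕ) : (w5 i).card = 3 := by
  unfold w5
  split_ifs with h
  · rfl
  · rw [card_insert_of_notMem, card_pair] <;> simp

theorem pf_W5 (h : T_COR) : T_W5 := by
  intro m hm
  refine ⟨2 * m + 1, fun i => w5 i, ⟨fun i => card_w5 i, ?_, ?_⟩, ?_⟩
  · intro i x hx
    rw [mem_w5] at hx
    have := i.2
    rw [mem_range]
    omega
  · intro i j hij
    rw [disjoint_left]
    intro x hx hx'
    rw [mem_w5] at hx hx'
    apply hij
    apply Fin.ext
    omega
  · intro r hr hcard _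
    have hex : ∀ i : ℕ, ∃ x, i < 2 * m + 1 → x ∈ r ∧ x ∈ w5 i := by
      intro i
      by_cases hi : i < 2 * m + 1
      · obtain ⟨x, hx⟩ := card_eq_one.1 (hcard ⟨i, hi⟩)
        have : x ∈ r ∩ w5 i := by
          have hx' : r ∩ w5 i = {x} := hx
          rw [hx']; simp
        exact ⟨x, fun _ => ⟨(mem_inter.1 this).1, (mem_inter.1 this).2⟩⟩
      · exact ⟨0, fun h => absurd h hi⟩
    choose P hP using hex
    have hP0 : P 0 ≤ 2 := by
      have := (mem_w5 _ _).1 (hP 0 (by omega)).2
      omega
    have hPi : ∀ i, 1 ≤ i → i < 2 * m + 1 → 3 * i + 1 ≤ P i ∧ P i ≤ 3 * i + 3 := by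
      intro i h1 h2
      have := (mem_w5 _ _).1 (hP i h2).2
      omega
    have hsub : (range (2 * m + 1)).image P ⊆ r := by
      intro x hx
      obtain ⟨i, hi, rfl⟩ := mem_image.1 hx
      exact (hP i (mem_range.1 hi)).1
    have hP1 := hPi 1 (by omega) (by omega)
    have hPk := hPi (2 * m) (by omega) (by omega)
    have hPk' : 2 * m + 1 - 1 = 2 * m := by omega
    have hbase : ∀ i < 2 * m + 1, P i < 6 * m + 5 := by
      intro i hi
      by_cases h0 : i = 0
      · subst h0; omega
      · have := hPi i (by omega) hi
        omega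
    have hstep : ∀ i, i + 1 < 2 * m + 1 → P i < P (i + 1) ∧ P (i + 1) ≤ P i + 6 := by
      intro i hi
      have h2 := hPi (i + 1) (by omega) hi
      by_cases h0 : i = 0
      · subst h0
        omega
      · have := hPi i (by omega) (by omega)
        omega
    have hCG : ∃ s, s ⊆ (range (2 * m + 1)).image P ∧ CG (6 * m + 5) s := by
      by_cases hz : 1 ≤ P 0
      · apply h (6 * m + 5) (2 * m + 1) P (fun i => i % 2 = 1) (by omega) hbase hstep
        · rw [hPk']; omega
        · intro i _ h1
          show ¬ ((i + 1) % 2 = 1)
          omega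
        · rw [hPk']
          omega
        · intro i _ _
          show i % 2 = 1 ∨ (i + 1) % 2 = 1
          omega
        · rw [hPk']
          intro h1
          omega
        · intro i hi hO hor
          have hO : (i + 1) % 2 = 1 := hO
          have h2 := hPi (i + 1) (by omega) (by omega)
          have h3 := hPi (i + 2) (by omega) (by omega)
          by_cases h0 : i = 0
          · subst h0
            simp only [zero_add] at *
            omega
          · have := hPi i (by omega) (by omega)
            omega
        · intro h0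
          have h0 : 0 % 2 = 1 := h0
          omega
        · rw [hPk']
          intro h0
          have h0 : (2 * m) % 2 = 1 := h0
          omega
      · apply h (6 * m + 5) (2 * m + 1) P (fun i => i % 2 = 0 ∧ 2 ≤ i) (by omega) hbase hstep
        · rw [hPk']; omega
        · rintro i - ⟨h1, h2⟩ ⟨h3, h4⟩
          omega
        · rintro ⟨-, h1, h2⟩
          omega
        · intro i hi h1
          show (i % 2 = 0 ∧ 2 ≤ i) ∨ ((i + 1) % 2 = 0 ∧ 2 ≤ i + 1)
          by_cases h0 : i = 0
          · subst h0
            simp only [zero_add] at *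
            omega
          · omega
        · rw [hPk']
          intro h1
          omega
        · rintro i hi ⟨hO1, hO2⟩ hor
          have h2 := hPi (i + 1) (by omega) (by omega)
          have h3 := hPi (i + 2) (by omega) (by omega)
          have := hPi i (by omega) (by omega)
          omega
        · rintro ⟨-, h0⟩
          omega
        · rw [hPk']
          rintro - hor
          have h2 := hPi (2 * m - 1) (by omega) (by omega)
          rw [show 2 * m + 1 - 2 = 2 * m - 1 by omega] at hor ⊢
          omega
    obtain ⟨s, hs, hg⟩ := hCG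
    exact ⟨s, hs.trans hsub, hg⟩

end Pool.Agent.H90.CH
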